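import Mathlib

/-!
# Bigraded coordinate rings

`Co a b = ℂ[x_0, …, x_a, y_0, …, y_b]` is the bihomogeneous coordinate ring of `P^a × P^b`.
-/

set_option autoImplicit false

open MvPolynomial Module

namespace Pool.Agent.TH279.GR

/-- the index set of the variables `x_0, …, x_a, y_0, …, y_b` -/
abbrev Ix (a b : ℕ) : Type := Fin (a + 1) ⊕ Fin (b + 1)

/-- the bihomogeneous coordinate ring of `P^a × P^b` -/
abbrev Co (a b : ℕ) : Type := MvPolynomial (Ix a b) ℂ

/-- the bidegrees of the variables -/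
def wt (a b : ℕ) : Ix a b → ℕ × ℕ := Sum.elim (fun _ => (1, 0)) (fun _ => (0, 1))

/-- the forms of bidegree `(u, v)` -/
noncomputable def bh (a b u v : ℕ) : Submodule ℂ (Co a b) :=
  weightedHomogeneousSubmodule ℂ (wt a b) (u, v)

variable {a b : ℕ}

/-- a bihomogeneous ideal: it contains the bihomogeneous components of its elements -/
def BHom (I : Ideal (Co a b)) : Prop :=
  ∀ f ∈ I, ∀ m : ℕ × ℕ, weightedHomogeneousComponent (wt a b) m f ∈ I

/-- the part of bidegree `(u, v)` of an ideal -/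
noncomputable def pt (I : Ideal (Co a b)) (u v : ℕ) : Submodule ℂ (Co a b) :=
  bh a b u v ⊓ I.restrictScalars ℂ

/-- the Hilbert function of `ℂ[x, y] / I` -/
noncomputable def hf (I : Ideal (Co a b)) (u v : ℕ) : ℕ :=
  finrank ℂ ((bh a b u v).map (Ideal.Quotient.mkₐ ℂ I).toLinearMap)

/-- `(N : x)` -/
noncomputable def col (N : Ideal (Co a b)) (x : Co a b) : Ideal (Co a b) :=
  Submodule.comap (LinearMap.mulLeft (Co a b) x) N

theorem mem_col {N : Ideal (Co a b)} {x f : Co a b} : f ∈ col N x ↔ x * f ∈ N := Iff.rfl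

/-- one step `N' < N' + (x)` of a prime filtration -/
structure Step (N' N : Ideal (Co a b)) (x : Co a b) (c e : ℕ) : Prop where
  hom : BHom N'
  mem : x ∈ bh a b c e
  eq : N = N' ⊔ Ideal.span {x}
  prime : (col N' x).IsPrime

/-- a prime filtration from `N'` to `N`, with the list of its primes (and bidegrees) -/
inductive Chain : Ideal (Co a b) → Ideal (Co a b) → List (Ideal (Co a b) × ℕ × ℕ) → Prop
  | nil (N : Ideal (Co a b)) (h : BHom N) : Chain N N []
  | cons {N' N'' N : Ideal (Co a b)} {x : Co a b} {c e : ℕ} {l : List (Ideal (Co a b) × ℕ × ℕ)}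
      (h : Step N' N'' x c e) (hc : Chain N'' N l) : Chain N' N ((col N' x, c, e) :: l)

/-- `Q` is relevant: it does not contain all forms of some bidegree -/
def Rel (Q : Ideal (Co a b)) : Prop := ∀ u v : ℕ, ¬ bh a b u v ≤ Q.restrictScalars ℂ

/-- `Q` has the Hilbert function `dA u + dB v + c` in large bidegrees -/
def Lin (Q : Ideal (Co a b)) (dA dB : ℕ) (c : ℤ) : Prop :=
  ∃ n0 : ℕ, ∀ u v : ℕ, n0 ≤ u → n0 ≤ v → (hf Q u v : ℤ) = dA * u + dB * v + c

/-- the field of fractions of the coordinate ring of `P` -/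
abbrev KK (P : Ideal (Co a b)) : Type := FractionRing (Co a b ⧸ P)

/-- the image of a form in the field of fractions -/
noncomputable def im (P : Ideal (Co a b)) : Co a b →ₐ[ℂ] KK P :=
  (IsScalarTower.toAlgHom ℂ (Co a b ⧸ P) (KK P)).comp (Ideal.Quotient.mkₐ ℂ P)

/-- `ψ` maps the forms of bidegree `(u + q, v + p)` into the forms of bidegree `(u + m, v + n)` of
the ideal `N` -/
def Mu (P N : Ideal (Co a b)) (m n q p u v : ℕ) (ψ : KK P) : Prop :=
  ∀ g ∈ bh a b (u + q) (v + p), ∃ f ∈ pt N (u + m) (v + n), ψ * im P g = im P f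

/-- the fractions of bidegree `(m - q, n - p)` which map all forms of large bidegree into `N` -/
def Ga (P N : Ideal (Co a b)) (m n q p : ℕ) (ψ : KK P) : Prop := ∃ u v : ℕ, Mu P N m n q p u v ψ

/-- `P` is the ideal of a surface `X` in `P^a × P^b` with `A² = α`, `A·B = β`, `B² = γ`, where
`A = O(1, 0)`, `B = O(0, 1)` -/
structure Surf (P : Ideal (Co a b)) (α β γ : ℝ) : Prop where
  prime : P.IsPrime
  hom : BHom P
  growth : ∀ p q : ℕ, 1 ≤ p → 1 ≤ q → Filter.Tendsto
    (fun t : ℕ => 2 * (hf P (p * t) (q * t) : ℝ) / (t : ℝ) ^ 2) Filter.atTop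
    (nhds (α * p ^ 2 + 2 * β * p * q + γ * q ^ 2))
  pos : 0 < α + 2 * β + γ

/-- `Q` is the ideal of a curve `C` in `P^a × P^b` with `A·C = dA`, `B·C = dB` -/
structure Curv (Q : Ideal (Co a b)) (dA dB : ℝ) : Prop where
  prime : Q.IsPrime
  hom : BHom Q
  growth : ∀ p q : ℕ, 1 ≤ p → 1 ≤ q → Filter.Tendsto
    (fun t : ℕ => (hf Q (p * t) (q * t) : ℝ) / (t : ℝ)) Filter.atTop (nhds (dA * p + dB * q))
  pos : 0 < dA + dB

/-- `L = A - B` is nef on `X` -/
def Nef (P : Ideal (Co a b)) : Prop :=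
  ∀ (Q : Ideal (Co a b)) (dA dB : ℝ), P ≤ Q → Curv Q dA dB → dB ≤ dA

end Pool.Agent.TH279.GR
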