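import Pool.Agent.TH952.GR.Basics
import Pool.Agent.TH241.GR.G0b
import Pool.Agent.TH857.GR.G7
import Pool.Agent.TH802.GR.Theta
import Pool.Agent.TH959.GR.G3

set_option autoImplicit false

open MvPolynomial Module Filter Topology

namespace Pool.Agent.TH279.GR.G8b

open Pool.Agent.TH279.GR Pool.Agent.TH802.GRTheta

variable {a b : ℕ}

theorem step_bound {P N' N : Ideal (Co a b)} (hP : P.IsPrime) (hPh : BHom P) (hPN : P ≤ N')
    {x : Co a b} {c e : ℕ} (h : Step N' N x c e) (hr : Rel (col N' x)) {dA dB : ℕ} {c0 : ℤ}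
    (hl : Lin (col N' x) dA dB c0) (m n q p : ℕ)
    (V : Submodule ℂ (KK P)) [FiniteDimensional ℂ V] (hV : ∀ ψ ∈ V, Ga P N m n q p ψ) :
    ∃ V' : Submodule ℂ (KK P), V' ≤ V ∧ (∀ ψ ∈ V', Ga P N' m n q p ψ) ∧
      (finrank ℂ V : ℤ) ≤ finrank ℂ V' +
        max 0 (1 + ((m : ℤ) - q) * dA + ((n : ℤ) - p) * dB) := by
  obtain ⟨n0, hn0⟩ := G0a.exists_common V hV
  have hV2 : ∀ ψ ∈ V, Mu P N m n q p (n0 + c) (n0 + e) ψ := fun ψ hψ =>
    hn0 (n0 + c) (n0 + e) (Nat.le_add_right _ _) (Nat.le_add_right _ _) ψ hψ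
  obtain ⟨T, hT1, hT2⟩ := G8.exists_theta hP hPh hPN h hr m n q p n0 n0 V hV2
  refine ⟨(LinearMap.ker T).map V.subtype, ?_, ?_, ?_⟩
  · rintro _ ⟨ψ, -, rfl⟩
    exact ψ.2
  · rintro _ ⟨ψ, hψ, rfl⟩
    exact ⟨_, _, hT1 ψ hψ⟩
  · have h1 : finrank ℂ ((LinearMap.ker T).map V.subtype) = finrank ℂ (LinearMap.ker T) :=
      (LinearEquiv.finrank_eq (Submodule.equivMapOfInjective _ V.injective_subtype _)).symm
    have h2 := T.finrank_range_add_finrank_ker
    rw [h1]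
    have h3 : (finrank ℂ (LinearMap.range T) : ℤ) ≤
        max 0 (1 + ((m : ℤ) - q) * dA + ((n : ℤ) - p) * dB) := by
      by_cases hb : LinearMap.range T = ⊥
      · rw [hb, finrank_bot]
        exact le_max_left _ _
      · have hQ : (col N' x).IsPrime := h.prime
        have hh : BHom (col N' x) := BHom.col h.hom h.mem
        have h4 := G7.mult_bound hQ hh hr hl m n q p c e n0 n0 (LinearMap.range T) hb (by
          rintro _ ⟨ψ, rfl⟩ g hg
          exact hT2 ψ g hg)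
        refine h4.trans (le_trans ?_ (le_max_right _ _))
        have h5 : (0 : ℤ) ≤ c * dA := by positivity
        have h6 : (0 : ℤ) ≤ e * dB := by positivity
        nlinarith
    omega

theorem step_irrel {P N' N : Ideal (Co a b)} (hP : P.IsPrime) (hPh : BHom P) (hPN : P ≤ N')
    {x : Co a b} {c e : ℕ} (h : Step N' N x c e) (hr : ¬ Rel (col N' x)) (m n q p : ℕ)
    (ψ : KK P) (hψ : Ga P N m n q p ψ) : Ga P N' m n q p ψ := by
  unfold Rel at hr
  push Not at hr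
  obtain ⟨u0, v0, h0⟩ := hr
  obtain ⟨u, v, hu⟩ := hψ
  have hcol : ∀ u' v' : ℕ, u0 ≤ u' → v0 ≤ v' → ∀ f ∈ bh a b u' v', f ∈ col N' x := by
    intro u' v' hu' hv' f hf
    obtain ⟨s, rfl⟩ := Nat.exists_eq_add_of_le hu'
    obtain ⟨t, rfl⟩ := Nat.exists_eq_add_of_le hv'
    rw [G0a.bh_eq_mul] at hf
    induction hf using Submodule.mul_induction_on' with
    | mem_mul_mem y hy z hz =>
      exact Ideal.mul_mem_right _ _ (h0 hy)
    | add y _ z _ hy hz => exact Ideal.add_mem _ hy hz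
  refine ⟨u + u0 + c, v + v0 + e, ?_⟩
  have h1 := G0a.Mu.mono hu (u' := u + u0 + c) (v' := v + v0 + e) (by omega) (by omega)
  intro g hg
  obtain ⟨f, hf, hfg⟩ := h1 g hg
  refine ⟨f, ⟨hf.1, ?_⟩, hfg⟩
  have h2 : f ∈ N := hf.2
  rw [h.eq] at h2
  have h3 : f ∈ bh a b (c + (u + u0 + m)) (e + (v + v0 + n)) := by
    have := hf.1
    rwa [show u + u0 + c + m = c + (u + u0 + m) by ring,
      show v + v0 + e + n = e + (v + v0 + n) by ring] at this
  obtain ⟨n', hn', k, hk, hfk⟩ := split h.hom h.mem h3 h2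
  have h4 := hcol _ _ (by omega) (by omega) k hk
  rw [mem_col] at h4
  show f ∈ N'
  rw [hfk]
  exact Ideal.add_mem _ hn' h4

theorem chain_bound {P N' N : Ideal (Co a b)} (hP : P.IsPrime) (hPh : BHom P) (hPN : P ≤ N')
    {l : List (Ideal (Co a b) × ℕ × ℕ)} (hc : Chain N' N l) (dA dB : Ideal (Co a b) → ℕ)
    (hl : ∀ t ∈ l, Rel t.1 → ∃ c0 : ℤ, Lin t.1 (dA t.1) (dB t.1) c0)
    (m n q p : ℕ) (V : Submodule ℂ (KK P)) [FiniteDimensional ℂ V]
    (hV : ∀ ψ ∈ V, Ga P N m n q p ψ) :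
    ∃ V' : Submodule ℂ (KK P), V' ≤ V ∧ (∀ ψ ∈ V', Ga P N' m n q p ψ) ∧
      (finrank ℂ V : ℤ) ≤ finrank ℂ V' +
        (l.map fun t => max 0 (1 + ((m : ℤ) - q) * dA t.1 + ((n : ℤ) - p) * dB t.1)).sum := by
  induction hc with
  | nil N h => exact ⟨V, le_rfl, hV, by simp⟩
  | @cons N' N'' N x c e l h hc ih =>
    have hle : N' ≤ N'' := by
      rw [h.eq]
      exact le_sup_left
    obtain ⟨V', hV'V, hV', hr'⟩ := ih (hPN.trans hle) (fun t ht =>
      hl t (List.mem_cons_of_mem _ ht)) hV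
    have : FiniteDimensional ℂ V' := Submodule.finiteDimensional_of_le hV'V
    by_cases hr : Rel (col N' x)
    · obtain ⟨c0, hc0⟩ := hl (col N' x, c, e) List.mem_cons_self hr
      obtain ⟨V'', h1, h2, h3⟩ := step_bound hP hPh hPN h hr hc0 m n q p V' hV'
      refine ⟨V'', h1.trans hV'V, h2, ?_⟩
      rw [List.map_cons, List.sum_cons]
      linarith
    · refine ⟨V', hV'V, fun ψ hψ => step_irrel hP hPh hPN h hr m n q p ψ (hV' ψ hψ), ?_⟩
      rw [List.map_cons, List.sum_cons]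
      have := le_max_left 0 (1 + ((m : ℤ) - q) * dA (col N' x) + ((n : ℤ) - p) * dB (col N' x))
      linarith

end Pool.Agent.TH279.GR.G8b
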