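import Pool.Agent.TH871.N4.Model2
import Pool.Agent.TH655.GR.G11
import Pool.Agent.TH692.GR.G10
import Pool.Agent.TH952.GR.Basics
import Pool.Agent.TH306.N4.Stmts

/-!
# From fractions of the bihomogeneous coordinate ring to sections in the function field
-/

set_option autoImplicit false

open MvPolynomial Module Filter Topology

namespace Pool.Agent.TH279.GR.S7b

open Pool.Agent.TH279.GR Pool.Agent.TH306.N4 Pool.Agent.TH871.N4

variable {a b : ℕ} {P : Ideal (Co a b)}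

theorem im_zero_iff {f : Co a b} : im P f = 0 ↔ f ∈ P := by
  have h0 : im P f = algebraMap (Co a b ⧸ P) (KK P) (Ideal.Quotient.mk P f) := rfl
  rw [h0, ← Ideal.Quotient.eq_zero_iff_mem]
  exact IsLocalization.to_map_eq_zero_iff (KK P) le_rfl

variable {FF : Type} [Field FF] [Algebra ℂ FF] {i : Fin (a + 1)} {j : Fin (b + 1)}
  {π : Co a b →ₐ[ℂ] FF}

theorem pi_congr (h : Mod P i j π) {f g : Co a b} (hfg : im P f = im P g) : π f = π g := by
  have h1 : f - g ∈ P := by rw [← im_zero_iff, map_sub, sub_eq_zero, hfg]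
  have h2 : π (f - g) = 0 := (h.ker _).2 (Ideal.mem_sup_left h1)
  rw [map_sub] at h2
  exact sub_eq_zero.1 h2

theorem im_congr (h : Mod P i j π) {u v : ℕ} {f g : Co a b} (hf : f ∈ bh a b u v)
    (hg : g ∈ bh a b u v) (hfg : π f = π g) : im P f = im P g := by
  have h1 : π (f - g) = 0 := by rw [map_sub, hfg, sub_self]
  have h2 := (pi_bh h (Submodule.sub_mem _ hf hg)).1 h1
  rw [← im_zero_iff, map_sub] at h2
  exact sub_eq_zero.1 h2

/-- the monomial `x_i^u y_j^v` -/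
noncomputable def mo (i : Fin (a + 1)) (j : Fin (b + 1)) (u v : ℕ) : Co a b :=
  X (Sum.inl i) ^ u * X (Sum.inr j) ^ v

theorem mo_mem (i : Fin (a + 1)) (j : Fin (b + 1)) (u v : ℕ) : mo i j u v ∈ bh a b u v := by
  have := bh_mul (X_pow_bh (b := b) i u) (Y_pow_bh (a := a) j v)
  rwa [add_zero, zero_add] at this

theorem pi_mo (h : Mod P i j π) (u v : ℕ) : π (mo i j u v) = 1 := by
  unfold mo
  have h1 : π (X (Sum.inl i)) = 1 := xx_one h
  have h2 : π (X (Sum.inr j)) = 1 := yy_one h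
  rw [map_mul, map_pow, map_pow, h1, h2, one_pow, one_pow, one_mul]

theorem im_mo_ne (h : Mod P i j π) (u v : ℕ) : im P (mo i j u v) ≠ 0 := by
  intro h0
  rw [im_zero_iff] at h0
  have h1 : π (mo i j u v) = 0 := (h.ker _).2 (Ideal.mem_sup_left h0)
  rw [pi_mo h] at h1
  exact one_ne_zero h1

/-- the comparison map -/
theorem exists_map (h : Mod P i j π) (m : ℕ) (W : Submodule ℂ (KK P))
    (n0 : ℕ) (hW : ∀ ψ ∈ W, Mu P ⊤ m 0 0 m n0 n0 ψ) :
    ∃ T : W →ₗ[ℂ] FF, ∀ (ψ : W) (f : Co a b), f ∈ bh a b (n0 + m) n0 →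
      ψ.1 * im P (mo i j n0 (n0 + m)) = im P f → T ψ = π f := by
  have hex : ∀ ψ : W, ∃ f ∈ bh a b (n0 + m) n0, ψ.1 * im P (mo i j n0 (n0 + m)) = im P f := by
    intro ψ
    obtain ⟨f, hf, hf2⟩ := hW ψ.1 ψ.2 (mo i j n0 (n0 + m)) (mo_mem _ _ _ _)
    exact ⟨f, hf.1, hf2⟩
  choose F hF1 hF2 using hex
  refine ⟨{ toFun := fun ψ => π (F ψ)
            map_add' := ?_
            map_smul' := ?_ }, ?_⟩
  · intro x y
    rw [← map_add]
    refine pi_congr h ?_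
    rw [← hF2, map_add, ← hF2, ← hF2, Submodule.coe_add, add_mul]
  · intro t x
    rw [RingHom.id_apply, ← map_smul]
    refine pi_congr h ?_
    rw [← hF2, map_smul, ← hF2, Submodule.coe_smul, smul_mul_assoc]
  · intro ψ f hf hf2
    exact pi_congr h (by rw [← hF2, hf2])

theorem sec_of (h : Mod P i j π) {m n0 : ℕ} {ψ : KK P} (hψ : Mu P ⊤ m 0 0 m n0 n0 ψ)
    {f : Co a b} (hf : f ∈ bh a b (n0 + m) n0)
    (hf2 : ψ * im P (mo i j n0 (n0 + m)) = im P f) : Sec π m (π f) := by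
  refine ⟨n0, ?_⟩
  rintro _ ⟨g, hg, rfl⟩
  obtain ⟨k, hk, hk2⟩ := hψ g hg
  refine ⟨k, hk.1, ?_⟩
  have h1 : im P (f * g) = im P (mo i j n0 (n0 + m) * k) := by
    rw [map_mul, map_mul, ← hf2, ← hk2]
    ring
  have h2 := pi_congr h h1
  rw [map_mul, map_mul, pi_mo h, one_mul] at h2
  exact h2.symm

theorem ga_of_sec (h : Mod P i j π) {m : ℕ} {φ : FF} (hφ : Sec π m φ) :
    ∃ (c : ℕ) (f : Co a b) (ψ : KK P), f ∈ bh a b (c + m) c ∧ π f = φ ∧
      ψ * im P (mo i j c (c + m)) = im P f ∧ Ga P ⊤ m 0 0 m ψ := by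
  have hP := h.prime
  obtain ⟨c, hc⟩ := hφ
  obtain ⟨f, hf, hf2⟩ := hc (π (mo i j c (c + m))) ⟨_, mo_mem _ _ _ _, rfl⟩
  have hf3 : π f = φ := by
    have : π f = φ * π (mo i j c (c + m)) := hf2
    rw [this, pi_mo h, mul_one]
  have h0 := im_mo_ne h c (c + m)
  obtain ⟨z, hz⟩ : ∃ z : KK P, im P (mo i j c (c + m)) * z = 1 := ⟨_, mul_inv_cancel₀ h0⟩
  refine ⟨c, f, im P f * z, hf, hf3, ?_, c, c, ?_⟩
  · rw [mul_assoc, mul_comm z, hz, mul_one]
  · intro g hg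
    obtain ⟨k, hk, hk2⟩ := hc (π g) ⟨g, hg, rfl⟩
    refine ⟨k, ⟨hk, trivial⟩, ?_⟩
    have hk3 : π k = π f * π g := by
      have : π k = φ * π g := hk2
      rw [this, hf3]
    have h1 : im P (f * g) = im P (k * mo i j c (c + m)) := by
      have e1 : f * g ∈ bh a b (c + m + c) (c + (c + m)) := bh_mul hf hg
      have e2 : k * mo i j c (c + m) ∈ bh a b (c + m + c) (c + (c + m)) :=
        bh_mul hk (mo_mem _ _ _ _)
      refine im_congr h e1 e2 ?_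
      rw [map_mul, map_mul, pi_mo h, mul_one, hk3]
    rw [map_mul, map_mul] at h1
    rw [mul_right_comm, h1, mul_assoc, hz, mul_one]

/-- the spaces of sections in the two models have the same dimension -/
theorem compare (h : Mod P i j π) (m : ℕ) (W : Submodule ℂ (KK P)) [FiniteDimensional ℂ W]
    (hW : ∀ ψ, ψ ∈ W ↔ Ga P ⊤ m 0 0 m ψ) :
    FiniteDimensional ℂ (SecM π m) ∧ finrank ℂ W ≤ finrank ℂ (SecM π m) := by
  have hP := h.prime
  obtain ⟨n0, hn0⟩ := G0a.exists_common W fun ψ hψ => (hW ψ).1 hψ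
  obtain ⟨T, hT⟩ := exists_map h m W n0 (fun ψ hψ => hn0 n0 n0 le_rfl le_rfl ψ hψ)
  have hle : SecM π m ≤ LinearMap.range T := by
    refine Submodule.span_le.2 ?_
    intro φ hφ
    obtain ⟨c, f, ψ, hf, hf2, hψ, hf3⟩ := ga_of_sec h hφ
    have hm := (hW _).2 hf3
    refine ⟨⟨_, hm⟩, ?_⟩
    obtain ⟨k, hk, hk2⟩ := hn0 n0 n0 le_rfl le_rfl _ hm (mo i j n0 (n0 + m)) (mo_mem _ _ _ _)
    rw [hT ⟨_, hm⟩ k hk.1 hk2, ← hf2]
    have h1 : im P (f * mo i j n0 (n0 + m)) = im P (k * mo i j c (c + m)) := by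
      rw [map_mul, map_mul, ← hk2, ← hψ]
      ring
    have h2 := pi_congr h h1
    rw [map_mul, map_mul, pi_mo h, pi_mo h, mul_one, mul_one] at h2
    exact h2.symm
  have hge : LinearMap.range T ≤ SecM π m := by
    rintro _ ⟨ψ, rfl⟩
    have h1 := hn0 n0 n0 le_rfl le_rfl _ ψ.2
    obtain ⟨k, hk, hk2⟩ := h1 (mo i j n0 (n0 + m)) (mo_mem _ _ _ _)
    rw [hT ψ k hk.1 hk2]
    exact Submodule.subset_span (sec_of h h1 hk.1 hk2)
  have hinj : Function.Injective T := by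
    rw [← LinearMap.ker_eq_bot, LinearMap.ker_eq_bot']
    intro ψ hψ
    obtain ⟨k, hk, hk2⟩ := hn0 n0 n0 le_rfl le_rfl _ ψ.2 (mo i j n0 (n0 + m)) (mo_mem _ _ _ _)
    rw [hT ψ k hk.1 hk2, pi_bh h hk.1] at hψ
    rw [im_zero_iff.2 hψ] at hk2
    exact Subtype.ext ((mul_eq_zero.1 hk2).resolve_right (im_mo_ne h _ _))
  have hfin : FiniteDimensional ℂ (SecM π m) := Submodule.finiteDimensional_of_le hle
  refine ⟨hfin, ?_⟩
  rw [← LinearMap.finrank_range_of_inj hinj]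
  exact Submodule.finrank_mono hge

theorem s7_of (hgr : ∀ {a b : ℕ} {P : Ideal (Co a b)} {α β γ : ℝ}, Surf P α β γ → Nef P →
    ∀ ε : ℝ, 0 < ε → ∀ᶠ d : ℕ in atTop, ∃ V : Submodule ℂ (KK P), FiniteDimensional ℂ V ∧
      (∀ ψ ∈ V, Ga P ⊤ d 0 0 d ψ) ∧ ((α - 2 * β + γ) / 2 - ε) * (d : ℝ) ^ 2 ≤ finrank ℂ V) :
    S7 := by
  intro a b P α β γ hS hN i j FF _ _ π h
  have key : ∀ m, ∃ W : Submodule ℂ (KK P), FiniteDimensional ℂ W ∧
      (∀ ψ, ψ ∈ W ↔ Ga P ⊤ m 0 0 m ψ) ∧ FiniteDimensional ℂ (SecM π m) ∧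
      finrank ℂ W ≤ finrank ℂ (SecM π m) := by
    intro m
    obtain ⟨W, hW⟩ := G0a.exists_GaS P ⊤ m 0 0 m
    have hfin : FiniteDimensional ℂ W :=
      G11.finite_sections hS m 0 0 m W (fun ψ hψ => (hW ψ).1 hψ)
    obtain ⟨h1, h2⟩ := compare h m W hW
    exact ⟨W, hfin, hW, h1, h2⟩
  refine ⟨fun m => ?_, ?_⟩
  · obtain ⟨W, _, _, h3, _⟩ := key m
    exact h3
  · intro ε hε
    obtain ⟨m₀, hm⟩ := eventually_atTop.1 (hgr hS hN (ε / 2) (by positivity))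
    refine ⟨m₀, fun m hm' => ?_⟩
    obtain ⟨V, hV1, hV2, hV3⟩ := hm m hm'
    obtain ⟨W, hW1, hW2, hW3, hW4⟩ := key m
    have h1 : V ≤ W := fun ψ hψ => (hW2 ψ).2 (hV2 ψ hψ)
    have h2 : finrank ℂ V ≤ finrank ℂ W := Submodule.finrank_mono h1
    have h3 : (finrank ℂ V : ℝ) ≤ finrank ℂ (SecM π m) := by exact_mod_cast h2.trans hW4
    have h4 : (((α : ℝ) - 2 * β + γ) / 2 - ε / 2) * (m : ℝ) ^ 2 ≤ finrank ℂ (SecM π m) :=
      hV3.trans h3
    linarith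

/-- **growth of the sections of a nef `L`** -/
theorem s7 : S7 := s7_of fun hP hN ε hε => G10.growth hP hN ε hε

end Pool.Agent.TH279.GR.S7b
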