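import Pool.Agent.TH279.GR.S7
import Pool.Agent.TH306.N4.StmtsV

/-!
# Growth of the sections of `m A - p B` for nef `A - B`
-/

set_option autoImplicit false

open MvPolynomial Module Filter Topology

namespace Pool.Agent.TH279.GR.S7v

open Pool.Agent.TH279.GR Pool.Agent.TH306.N4 Pool.Agent.TH871.N4 Pool.Agent.TH279.GR.S7b
  Pool.Agent.TH692.GR

variable {a b : ℕ} {P : Ideal (Co a b)}

/-- growth for the bidegrees `(m, -p)`, `p ≤ m` -/
theorem growth2 {α β γ : ℕ} (hP : Surf P α β γ) (hnef : Nef P) (ε : ℝ)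
    (hε : 0 < ε) : ∃ m₀ : ℕ, ∀ m, m₀ ≤ m → ∀ p, p ≤ m →
      ∃ V : Submodule ℂ (KK P), FiniteDimensional ℂ V ∧
      (∀ ψ ∈ V, Ga P ⊤ m 0 0 p ψ) ∧
      ((α : ℝ) * m ^ 2 - 2 * β * m * p + γ * p ^ 2) - ε * (m : ℝ) ^ 2 ≤ 2 * finrank ℂ V := by
  obtain ⟨j, C, hj, hstep⟩ := G10.descent_step hP hnef
  haveI := hP.prime
  -- all the steps
  have hall : ∀ (d p : ℕ), p ≤ 2 * d → ∃ V : Submodule ℂ (KK P), FiniteDimensional ℂ V ∧
      (∀ ψ ∈ V, Ga P ⊤ d d 0 p ψ) ∧ (hf P d d : ℝ) ≤ finrank ℂ V + p * C + p * (d * β) +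
        (p * d - p * (p - 1) / 2) * γ := by
    intro d p
    induction p with
    | zero =>
      intro _
      haveI := G0a.finite_bh (a := a) (b := b) d d
      refine ⟨(bh a b d d).map (im P).toLinearMap, inferInstance, ?_, ?_⟩
      · rintro _ ⟨f, hf, rfl⟩
        refine ⟨0, 0, fun g hg => ⟨f * g, ?_, ?_⟩⟩
        · unfold pt
          rw [Submodule.mem_inf]
          refine ⟨?_, trivial⟩
          have := G0a.bh_mul hf hg
          simpa using this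
        · exact (map_mul (im P) f g).symm
      · have h1 : hf P d d = finrank ℂ ((bh a b d d).map (im P).toLinearMap) := by
          unfold hf
          have h2 : (im P).toLinearMap = (IsScalarTower.toAlgHom ℂ (Co a b ⧸ P)
              (KK P)).toLinearMap.comp (Ideal.Quotient.mkₐ ℂ P).toLinearMap := rfl
          rw [h2, Submodule.map_comp]
          exact LinearEquiv.finrank_eq (Submodule.equivMapOfInjective _
            (IsFractionRing.injective (Co a b ⧸ P) (KK P)) _)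
        rw [h1]
        simp
    | succ p ih =>
      intro hp
      obtain ⟨V, hfin, hV, hdim⟩ := ih (by omega)
      obtain ⟨V', hfin', hV', hdim'⟩ := hstep d d p (by omega) (by omega) V hV
      refine ⟨V', hfin', hV', ?_⟩
      push_cast
      linarith
  have hg := hP.growth 1 1 le_rfl le_rfl
  have h1 := hg.eventually (lt_mem_nhds (show (α : ℝ) + 2 * β + γ - ε / 2 <
    α * (1 : ℕ) ^ 2 + 2 * β * (1 : ℕ) * (1 : ℕ) + γ * (1 : ℕ) ^ 2 by push_cast; linarith))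
  obtain ⟨d1, hd1⟩ := exists_nat_ge ((2 * (2 * (2 * (C : ℝ) + γ))) / ε)
  obtain ⟨d2, hd2⟩ := eventually_atTop.1 h1
  refine ⟨d2 + d1 + 1, fun d hdd p hp => ?_⟩
  have hd := hd2 d (by omega)
  rw [one_mul] at hd
  obtain ⟨V, hfin, hV, hdim⟩ := hall d (d + p) (by omega)
  refine ⟨V, hfin, ?_, ?_⟩
  · intro ψ hψ
    obtain ⟨u, v, huv⟩ := hV ψ hψ
    refine ⟨u, v + d, fun g hg => ?_⟩
    have e1 : v + d + p = v + (d + p) := by ring
    rw [e1] at hg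
    exact huv g hg
  · have hd0 : (0 : ℝ) < d := by exact_mod_cast (by omega : 0 < d)
    have hd3 : (2 * (2 * (2 * (C : ℝ) + γ))) / ε ≤ d :=
      hd1.trans (by exact_mod_cast (by omega : d1 ≤ d))
    rw [div_le_iff₀ hε] at hd3
    rw [lt_div_iff₀ (by positivity)] at hd
    push_cast at hdim
    have hp' : (p : ℝ) ≤ d := by exact_mod_cast hp
    have hp0 : (0 : ℝ) ≤ p := by positivity
    have hC : (0 : ℝ) ≤ 2 * C + γ := by positivity
    -- the error term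
    have h5 : ((d : ℝ) + p) * (2 * C + γ) ≤ ε / 2 * d ^ 2 := by
      have e1 : ((d : ℝ) + p) * (2 * C + γ) ≤ (2 * d) * (2 * C + γ) :=
        mul_le_mul_of_nonneg_right (by linarith) hC
      have e2 : (2 * (2 * (2 * (C : ℝ) + γ))) * d ≤ d * ε * d :=
        mul_le_mul_of_nonneg_right hd3 hd0.le
      nlinarith
    have h6 : 2 * (((d : ℝ) + p) * (d * β)) + 2 * ((((d : ℝ) + p) * d -
        (d + p) * ((d + p) - 1) / 2) * γ) + 2 * (((d : ℝ) + p) * C) =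
        (α + 2 * β + γ) * d ^ 2 - (α * d ^ 2 - 2 * β * d * p + γ * p ^ 2) +
          ((d : ℝ) + p) * (2 * C + γ) := by
      ring
    nlinarith

variable {FF : Type} [Field FF] [Algebra ℂ FF] {i : Fin (a + 1)} {j : Fin (b + 1)}
  {π : Co a b →ₐ[ℂ] FF}

/-- the comparison map -/
theorem exists_map2 (h : Mod P i j π) (m p : ℕ) (W : Submodule ℂ (KK P))
    (n0 : ℕ) (hW : ∀ ψ ∈ W, Mu P ⊤ m 0 0 p n0 n0 ψ) :
    ∃ T : W →ₗ[ℂ] FF, ∀ (ψ : W) (f : Co a b),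
      ψ.1 * im P (mo i j n0 (n0 + p)) = im P f → T ψ = π f := by
  have hex : ∀ ψ : W, ∃ f ∈ bh a b (n0 + m) n0, ψ.1 * im P (mo i j n0 (n0 + p)) = im P f := by
    intro ψ
    obtain ⟨f, hf, hf2⟩ := hW ψ.1 ψ.2 (mo i j n0 (n0 + p)) (mo_mem _ _ _ _)
    exact ⟨f, hf.1, hf2⟩
  choose F hF1 hF2 using hex
  refine ⟨{ toFun := fun ψ => π (F ψ)
            map_add' := ?_
            map_smul' := ?_ }, ?_⟩
  · intro x y
    rw [← map_add]
    refine pi_congr h ?_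
    rw [← hF2, map_add, ← hF2, ← hF2, Submodule.coe_add, add_mul]
  · intro t x
    rw [RingHom.id_apply, ← map_smul]
    refine pi_congr h ?_
    rw [← hF2, map_smul, ← hF2, Submodule.coe_smul, smul_mul_assoc]
  · intro ψ f hf2
    exact pi_congr h (by rw [← hF2, hf2])

theorem sec_of2 (h : Mod P i j π) {m p n0 : ℕ} {ψ : KK P} (hψ : Mu P ⊤ m 0 0 p n0 n0 ψ)
    {f : Co a b} (hf2 : ψ * im P (mo i j n0 (n0 + p)) = im P f) : Sec2 π m p (π f) := by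
  refine ⟨n0, ?_⟩
  rintro _ ⟨g, hg, rfl⟩
  obtain ⟨k, hk, hk2⟩ := hψ g hg
  refine ⟨k, hk.1, ?_⟩
  have h1 : im P (f * g) = im P (mo i j n0 (n0 + p) * k) := by
    rw [map_mul, map_mul, ← hf2, ← hk2]
    ring
  have h2 := pi_congr h h1
  rw [map_mul, map_mul, pi_mo h, one_mul] at h2
  exact h2.symm

theorem ga_of_sec2 (h : Mod P i j π) {m p : ℕ} {φ : FF} (hφ : Sec2 π m p φ) :
    ∃ (c : ℕ) (f : Co a b) (ψ : KK P), f ∈ bh a b (c + m) c ∧ π f = φ ∧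
      ψ * im P (mo i j c (c + p)) = im P f ∧ Ga P ⊤ m 0 0 p ψ := by
  have hP := h.prime
  obtain ⟨c, hc⟩ := hφ
  obtain ⟨f, hf, hf2⟩ := hc (π (mo i j c (c + p))) ⟨_, mo_mem _ _ _ _, rfl⟩
  have hf3 : π f = φ := by
    have : π f = φ * π (mo i j c (c + p)) := hf2
    rw [this, pi_mo h, mul_one]
  have h0 := im_mo_ne h c (c + p)
  obtain ⟨z, hz⟩ : ∃ z : KK P, im P (mo i j c (c + p)) * z = 1 := ⟨_, mul_inv_cancel₀ h0⟩
  refine ⟨c, f, im P f * z, hf, hf3, ?_, c, c, ?_⟩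
  · rw [mul_assoc, mul_comm z, hz, mul_one]
  · intro g hg
    obtain ⟨k, hk, hk2⟩ := hc (π g) ⟨g, hg, rfl⟩
    refine ⟨k, ⟨hk, trivial⟩, ?_⟩
    have hk3 : π k = π f * π g := by
      have : π k = φ * π g := hk2
      rw [this, hf3]
    have h1 : im P (f * g) = im P (k * mo i j c (c + p)) := by
      have e1 : f * g ∈ bh a b (c + m + c) (c + (c + p)) := bh_mul hf hg
      have e2 : k * mo i j c (c + p) ∈ bh a b (c + m + c) (c + (c + p)) :=
        bh_mul hk (mo_mem _ _ _ _)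
      refine im_congr h e1 e2 ?_
      rw [map_mul, map_mul, pi_mo h, mul_one, hk3]
    rw [map_mul, map_mul] at h1
    rw [mul_right_comm, h1, mul_assoc, hz, mul_one]

/-- the spaces of sections in the two models are isomorphic -/
theorem compare2 (h : Mod P i j π) (m p : ℕ) (W : Submodule ℂ (KK P)) [FiniteDimensional ℂ W]
    (hW : ∀ ψ, ψ ∈ W ↔ Ga P ⊤ m 0 0 p ψ) :
    ∃ S : Submodule ℂ FF, (∀ ψ, ψ ∈ S ↔ Sec2 π m p ψ) ∧ FiniteDimensional ℂ S ∧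
      finrank ℂ W = finrank ℂ S := by
  have hP := h.prime
  obtain ⟨n0, hn0⟩ := G0a.exists_common W fun ψ hψ => (hW ψ).1 hψ
  obtain ⟨T, hT⟩ := exists_map2 h m p W n0 (fun ψ hψ => hn0 n0 n0 le_rfl le_rfl ψ hψ)
  have hinj : Function.Injective T := by
    rw [← LinearMap.ker_eq_bot, LinearMap.ker_eq_bot']
    intro ψ hψ
    obtain ⟨k, hk, hk2⟩ := hn0 n0 n0 le_rfl le_rfl _ ψ.2 (mo i j n0 (n0 + p)) (mo_mem _ _ _ _)
    rw [hT ψ k hk2, pi_bh h hk.1] at hψ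
    rw [S7b.im_zero_iff.2 hψ] at hk2
    exact Subtype.ext ((mul_eq_zero.1 hk2).resolve_right (im_mo_ne h _ _))
  refine ⟨LinearMap.range T, fun φ => ⟨?_, ?_⟩, inferInstance,
    (LinearMap.finrank_range_of_inj hinj).symm⟩
  · rintro ⟨ψ, rfl⟩
    have h1 := hn0 n0 n0 le_rfl le_rfl _ ψ.2
    obtain ⟨k, hk, hk2⟩ := h1 (mo i j n0 (n0 + p)) (mo_mem _ _ _ _)
    rw [hT ψ k hk2]
    exact sec_of2 h h1 hk2
  · intro hφ
    obtain ⟨c, f, ψ, hf, hf2, hψ, hf3⟩ := ga_of_sec2 h hφ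
    have hm := (hW _).2 hf3
    refine ⟨⟨_, hm⟩, ?_⟩
    obtain ⟨k, hk, hk2⟩ := hn0 n0 n0 le_rfl le_rfl _ hm (mo i j n0 (n0 + p)) (mo_mem _ _ _ _)
    rw [hT ⟨_, hm⟩ k hk2, ← hf2]
    have h1 : im P (f * mo i j n0 (n0 + p)) = im P (k * mo i j c (c + p)) := by
      rw [map_mul, map_mul, ← hk2, ← hψ]
      ring
    have h2 := pi_congr h h1
    rw [map_mul, map_mul, pi_mo h, pi_mo h, mul_one, mul_one] at h2
    exact h2.symm

/-- **growth of the sections of `m A - p B`** -/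
theorem s7v (a b : ℕ) (P : Ideal (Co a b)) (α β γ : ℕ) (hS : Surf P α β γ) (hN : Nef P)
    (i : Fin (a + 1)) (j : Fin (b + 1)) (FF : Type) [Field FF] [Algebra ℂ FF]
    (π : Co a b →ₐ[ℂ] FF) (h : Mod P i j π) :
    ∃ S : ℕ → ℕ → Submodule ℂ FF, (∀ m p ψ, ψ ∈ S m p ↔ Sec2 π m p ψ) ∧
      (∀ m p, FiniteDimensional ℂ (S m p)) ∧
      ∀ ε : ℝ, 0 < ε → ∃ m₀ : ℕ, ∀ m, m₀ ≤ m → ∀ p, p ≤ m →
        ((α : ℝ) * m ^ 2 - 2 * β * m * p + γ * p ^ 2) - ε * (m : ℝ) ^ 2 ≤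
          2 * finrank ℂ (S m p) := by
  have key : ∀ m p, ∃ (S : Submodule ℂ FF) (W : Submodule ℂ (KK P)),
      (∀ ψ, ψ ∈ W ↔ Ga P ⊤ m 0 0 p ψ) ∧ FiniteDimensional ℂ W ∧
      (∀ ψ, ψ ∈ S ↔ Sec2 π m p ψ) ∧ FiniteDimensional ℂ S ∧
      finrank ℂ W = finrank ℂ S := by
    intro m p
    obtain ⟨W, hW⟩ := G0a.exists_GaS P ⊤ m 0 0 p
    have hfin : FiniteDimensional ℂ W :=
      G11.finite_sections hS m 0 0 p W (fun ψ hψ => (hW ψ).1 hψ)
    obtain ⟨S, h1, h2, h3⟩ := compare2 h m p W hW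
    exact ⟨S, W, hW, hfin, h1, h2, h3⟩
  choose S W h1 h2 h3 h4 h5 using key
  refine ⟨S, h3, h4, fun ε hε => ?_⟩
  obtain ⟨m₀, hm⟩ := growth2 hS hN ε hε
  refine ⟨m₀, fun m hm' p hp => ?_⟩
  obtain ⟨V, hV1, hV2, hV3⟩ := hm m hm' p hp
  have e1 : V ≤ W m p := fun ψ hψ => (h1 m p ψ).2 (hV2 ψ hψ)
  have _ := h2 m p
  have e2 : finrank ℂ V ≤ finrank ℂ (W m p) := Submodule.finrank_mono e1
  have e3 : (finrank ℂ V : ℝ) ≤ finrank ℂ (S m p) := by
    rw [← h5 m p]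
    exact_mod_cast e2
  linarith

/-- **the interface statement** -/
theorem v7 : V7 := by
  intro a b P α β γ hS hN i j FF _ _ π h
  obtain ⟨S, h1, h2, h3⟩ := s7v a b P α β γ hS hN i j FF π h
  have h4 : ∀ m p, SecM2 π m p = S m p := by
    intro m p
    unfold SecM2
    rw [show {ψ | Sec2 π m p ψ} = (S m p : Set FF) from Set.ext fun ψ => (h1 m p ψ).symm,
      Submodule.span_eq]
  refine ⟨fun m p => ?_, fun ε hε => ?_⟩
  · rw [h4]
    exact h2 m p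
  · obtain ⟨m₀, hm⟩ := h3 ε hε
    refine ⟨m₀, fun m hm' p hp => ?_⟩
    rw [h4]
    exact hm m hm' p hp

end Pool.Agent.TH279.GR.S7v
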